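import Pool.Agent.Lib.MP_89fcdb_gt.Interfaces
import Pool.Agent.Lib.MP_904b2a_gt.Ball

/-!
# MP_89fcdb_gt, module GS: from the fibre to the total space
-/

open scoped BigOperators
open Set Topology Pool.Agent.Lib.MP_904b2a_gt

namespace Pool.Agent.Lib.MP_89fcdb_gt.H4

noncomputable section

section Exc

variable {X Y : Type} [TopologicalSpace X] [TopologicalSpace Y] {A : Type} [AddCommGroup A]

/-- Excision for an open embedding. -/
theorem excision_emb (j : C(Y, X)) (hj : IsOpenEmbedding j) {T : Set X} (hT : IsOpen T)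
    (hc : T ∪ range j = univ) {S : Set Y} (hS : ∀ y, y ∈ S ↔ j y ∈ T) (h : MapsTo j S T) (n : ℕ) :
    Function.Bijective (HR.pb (n := n) (A := A) j h) := by
  have hE := HR.excision (smallC (A := A) hT hj.isOpen_range hc) n
  let e : Y ≃ₜ ↥(range j) := hj.toHomeomorph
  have he : MapsTo e S ((incl (range j)) ⁻¹' T) := by
    intro y hy
    change (e y : X) ∈ T
    exact (hS y).mp hy
  have he' : MapsTo e.symm ((incl (range j)) ⁻¹' T) S := by
    intro z hz
    rw [hS]
    have h1 : j (e.symm z) = z.1 := by
      have h2 : e (e.symm z) = z := e.apply_symm_apply z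
      exact congrArg Subtype.val h2
    rw [h1]
    exact hz
  have hB := HR.pb_bijective_homeo (A := A) e he he' n
  have hcomp := hB.comp hE
  convert hcomp using 1
  funext u
  change _ = HR.pb (e : C(Y, ↥(range j))) he (HR.pb (incl (range j)) _ u)
  rw [HR.pb_comp]
  rfl

end Exc

/-- The restriction from `(X, S')` to `(X, S)` for `S ⊆ S'`. -/
theorem toH_pb_id {X : Type} [TopologicalSpace X] {A : Type} [AddCommGroup A] {S S' : Set X}
    (f : C(X, X)) (hf : ∀ x, f x = x) (h : MapsTo f S S') (n : ℕ) (u : HR n S' A) :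
    HR.toH (HR.pb f h u) = HR.toH u := by
  have hf' : f = ContinuousMap.id X := ContinuousMap.ext hf
  subst hf'
  rw [HR.toH_pb, H.pb_id]

theorem thomSet_empty (d : ℕ) {Z : Type} : thomSet d (∅ : Set Z) = {p | p.2 ≠ 0} := by
  ext p
  simp [thomSet]

theorem gs (hT : ThomStatement) : GSStatement := by
  obtain ⟨Θ, hbij, hnat, -, -⟩ := hT
  intro X F _ _ _ d m j hj hd hcl
  have hZ : IsOpen (j '' {p | p.2 = 0})ᶜ := hcl.isOpen_compl
  have hcov : (j '' {p | p.2 = 0})ᶜ ∪ range j = univ := by
    rw [eq_univ_iff_forall]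
    intro x
    by_cases hx : x ∈ j '' {p : F × (Fin d → ℝ) | p.2 = 0}
    · right
      exact image_subset_range _ _ hx
    · left
      exact hx
  have hmem0 : ∀ y : F × (Fin d → ℝ), y ∈ thomSet d (∅ : Set F) ↔ j y ∈ (j '' {p | p.2 = 0})ᶜ := by
    intro y
    rw [thomSet_empty, mem_compl_iff, hj.injective.mem_set_image]
    rfl
  have hmaps0 : MapsTo j (thomSet d (∅ : Set F)) (j '' {p | p.2 = 0})ᶜ := fun y hy => (hmem0 y).mp hy
  have hexc : ∀ (A : Type) [AddCommGroup A] (n : ℕ), Function.Bijective
      (HR.pb (n := n) (A := A) j hmaps0) := fun A _ n =>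
    excision_emb j hj hZ hcov hmem0 hmaps0 n
  constructor
  · intro hC hF A _ u
    obtain ⟨v, rfl⟩ := (HR.exact_H u).mp (hC A _)
    have hv : HR.pb j hmaps0 v = 0 := by
      obtain ⟨w, hw⟩ := (hbij d F ∅ m A isOpen_empty).2 (HR.pb j hmaps0 v)
      have hw0 : w = 0 := by
        apply (HR.toH_bijective_of_empty (A := A) (n := m) (X := F) rfl).1
        rw [map_zero]
        exact hF A _
      rw [← hw, hw0, map_zero]
    have hv0 : v = 0 := (hexc A (m + d)).1 (hv.trans (map_zero _).symm)
    rw [hv0, map_zero]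
  · intro hC h1 hC' x hx A _
    -- the complement of the point is open
    have hsub : (j '' {p | p.2 = 0})ᶜ ⊆ ({j (x, 0)}ᶜ : Set X) := by
      intro y hy hy'
      rw [mem_singleton_iff] at hy'
      exact hy (hy' ▸ ⟨(x, 0), rfl, rfl⟩)
    have hxopen : IsOpen ({j (x, 0)}ᶜ : Set X) := by
      have heq : ({j (x, 0)}ᶜ : Set X) =
          (j '' {p | p.2 = 0})ᶜ ∪ j '' ({((x, 0) : F × (Fin d → ℝ))}ᶜ) := by
        ext y
        constructor
        · intro hy
          by_cases hyZ : y ∈ j '' {p : F × (Fin d → ℝ) | p.2 = 0}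
          · right
            obtain ⟨p, hp, rfl⟩ := hyZ
            refine ⟨p, ?_, rfl⟩
            intro hp'
            rw [mem_singleton_iff] at hp'
            exact hy (by rw [hp']; rfl)
          · left
            exact hyZ
        · rintro (hy | ⟨p, hp, rfl⟩)
          · exact hsub hy
          · intro hp'
            rw [mem_singleton_iff] at hp'
            exact hp (hj.injective hp')
      rw [heq]
      exact hZ.union (hj.isOpenMap _ isClosed_singleton.isOpen_compl)
    have hmem1 : ∀ y : F × (Fin d → ℝ), y ∈ thomSet d ({x}ᶜ : Set F) ↔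
        j y ∈ ({j (x, 0)}ᶜ : Set X) := by
      intro y
      rw [mem_compl_iff, mem_singleton_iff, hj.injective.eq_iff]
      unfold thomSet
      rw [mem_ofPred_eq, mem_compl_iff, mem_singleton_iff, Prod.ext_iff]
      tauto
    have hmaps1 : MapsTo j (thomSet d ({x}ᶜ : Set F)) ({j (x, 0)}ᶜ : Set X) :=
      fun y hy => (hmem1 y).mp hy
    have hcov1 : ({j (x, 0)}ᶜ : Set X) ∪ range j = univ := by
      rw [eq_univ_iff_forall] at hcov ⊢
      intro y
      rcases hcov y with h | h
      · exact Or.inl (hsub h)
      · exact Or.inr h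
    have hexc1 : Function.Bijective (HR.pb (n := m + d) (A := A) j hmaps1) :=
      excision_emb j hj hxopen hcov1 hmem1 hmaps1 (m + d)
    -- the middle map
    have hE : MapsTo (ContinuousMap.id F) (∅ : Set F) ({x}ᶜ : Set F) := fun y hy => hy.elim
    have hmid : Function.Bijective (HR.pb (n := m) (A := A) (ContinuousMap.id F) hE) := by
      have h2 := HR.toH_bijective_of_empty (A := A) (n := m) (X := F) (S := ∅) rfl
      have h3 := hx A
      have h4 : (HR.toH (n := m) (S := (∅ : Set F)) (A := A)) ∘
          (HR.pb (n := m) (A := A) (ContinuousMap.id F) hE) =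
          (HR.toH (n := m) (S := ({x}ᶜ : Set F)) (A := A)) := by
        funext u
        exact toH_pb_id (ContinuousMap.id F) (fun _ => rfl) hE m u
      have h5 : Function.Bijective ((HR.toH (n := m) (S := (∅ : Set F)) (A := A)) ∘
          (HR.pb (n := m) (A := A) (ContinuousMap.id F) hE)) := by
        rw [h4]
        exact h3
      exact (h2.of_comp_iff' _).mp h5
    have hmid' : Function.Bijective (HR.pb (n := m + d) (A := A) (prodId d (ContinuousMap.id F))
        (prodId_mapsTo d hE)) := by
      have h6 : (HR.pb (n := m + d) (A := A) (prodId d (ContinuousMap.id F))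
          (prodId_mapsTo d hE)) ∘ (Θ d F ({x}ᶜ : Set F) m A) =
          (Θ d F ∅ m A) ∘ (HR.pb (n := m) (A := A) (ContinuousMap.id F) hE) := by
        funext u
        exact (hnat d F F (ContinuousMap.id F) ∅ ({x}ᶜ : Set F) hE isOpen_empty
          isClosed_singleton.isOpen_compl m A u).symm
      have h7 : Function.Bijective ((HR.pb (n := m + d) (A := A) (prodId d (ContinuousMap.id F))
          (prodId_mapsTo d hE)) ∘ (Θ d F ({x}ᶜ : Set F) m A)) := by
        rw [h6]
        exact (hbij d F ∅ m A isOpen_empty).comp hmid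
      exact (Function.Bijective.of_comp_iff _
        (hbij d F ({x}ᶜ : Set F) m A isClosed_singleton.isOpen_compl)).mp h7
    -- restriction from `X ∖ point` to `X ∖ Z`
    have hI : MapsTo (ContinuousMap.id X) (j '' {p | p.2 = 0})ᶜ ({j (x, 0)}ᶜ : Set X) := hsub
    have hres : Function.Bijective (HR.pb (n := m + d) (A := A) (ContinuousMap.id X) hI) := by
      have h8 : (HR.pb (n := m + d) (A := A) j hmaps0) ∘
          (HR.pb (n := m + d) (A := A) (ContinuousMap.id X) hI) =
          (HR.pb (n := m + d) (A := A) (prodId d (ContinuousMap.id F))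
          (prodId_mapsTo d hE)) ∘ (HR.pb (n := m + d) (A := A) j hmaps1) := by
        funext u
        change HR.pb j hmaps0 (HR.pb (ContinuousMap.id X) hI u) =
          HR.pb (prodId d (ContinuousMap.id F)) (prodId_mapsTo d hE) (HR.pb j hmaps1 u)
        rw [HR.pb_comp, HR.pb_comp]
        rfl
      have h9 : Function.Bijective ((HR.pb (n := m + d) (A := A) j hmaps0) ∘
          (HR.pb (n := m + d) (A := A) (ContinuousMap.id X) hI)) := by
        rw [h8]
        exact hmid'.comp hexc1
      exact ((hexc A (m + d)).of_comp_iff' _).mp h9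
    -- the long exact sequence
    have hlong : Function.Bijective (HR.toH (n := m + d) (S := (j '' {p | p.2 = 0})ᶜ) (A := A)) := by
      constructor
      · rw [injective_iff_map_eq_zero]
        intro v hv
        obtain ⟨k, hk⟩ : ∃ k, m + d = k + 1 := ⟨m + d - 1, by omega⟩
        have hk' : m + d - 1 = k := by omega
        rw [hk'] at hC'
        revert v
        rw [hk]
        intro v hv
        obtain ⟨w, rfl⟩ := (HR.exact_R v).mp hv
        rw [hC' A w, map_zero]
      · intro u
        exact (HR.exact_H u).mp (hC A _)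
    have hfin : (HR.toH (n := m + d) (S := ({j (x, 0)}ᶜ : Set X)) (A := A)) =
        (HR.toH (n := m + d) (S := (j '' {p | p.2 = 0})ᶜ) (A := A)) ∘
        (HR.pb (n := m + d) (A := A) (ContinuousMap.id X) hI) := by
      funext u
      exact (toH_pb_id (ContinuousMap.id X) (fun _ => rfl) hI (m + d) u).symm
    rw [hfin]
    exact hlong.comp hres

end

end Pool.Agent.Lib.MP_89fcdb_gt.H4
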