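import Pool.Agent.Lib.MP_89fcdb_gt.H4.GS

/-!
# MP_89fcdb_gt, module LH: local homeomorphisms over one point
-/

open scoped BigOperators
open Set Topology Pool.Agent.Lib.MP_904b2a_gt

namespace Pool.Agent.Lib.MP_89fcdb_gt.H4

noncomputable section

theorem lh : LHStatement := by
  intro n X Y _ _ _ _ f x₀ hloc hX hY A _
  obtain ⟨V, hV, hx, hpre, hinj, hopen⟩ := hloc
  let j₁ : C(V, X) := incl V
  have hj₁ : IsOpenEmbedding j₁ := hV.isOpenEmbedding_subtypeVal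
  let j₂ : C(V, Y) := f.comp (incl V)
  have hj₂ : IsOpenEmbedding j₂ := by
    refine .of_continuous_injective_isOpenMap j₂.continuous ?_ ?_
    · rintro ⟨a, ha⟩ ⟨b, hb⟩ hab
      exact Subtype.ext (hinj ha hb hab)
    · intro W hW
      have h1 : j₂ '' W = f '' (Subtype.val '' W) := by
        rw [← image_comp]
        rfl
      rw [h1]
      refine hopen _ ?_ (hV.isOpenMap_subtype_val _ hW)
      rintro _ ⟨w, _, rfl⟩
      exact w.2
  have hmap : MapsTo f ({x₀}ᶜ : Set X) ({f x₀}ᶜ : Set Y) := by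
    intro x hx' hx''
    rw [mem_singleton_iff] at hx''
    have h2 : x ∈ V := by
      rw [← hpre]
      exact ⟨x₀, hx, hx''.symm⟩
    exact hx' (hinj h2 hx hx'')
  have hS₁ : ∀ y : V, y ∈ (j₁ ⁻¹' ({x₀}ᶜ : Set X)) ↔ j₁ y ∈ ({x₀}ᶜ : Set X) := fun _ => Iff.rfl
  have hS₂ : ∀ y : V, y ∈ (j₁ ⁻¹' ({x₀}ᶜ : Set X)) ↔ j₂ y ∈ ({f x₀}ᶜ : Set Y) := by
    intro y
    constructor
    · intro hy
      exact hmap hy
    · intro hy hy'
      rw [mem_singleton_iff] at hy'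
      apply hy
      rw [mem_singleton_iff]
      exact congrArg f hy'
  have hc₁ : ({x₀}ᶜ : Set X) ∪ range j₁ = univ := by
    rw [eq_univ_iff_forall]
    intro x
    by_cases h : x = x₀
    · right
      exact ⟨⟨x₀, hx⟩, h.symm⟩
    · left
      exact h
  have hc₂ : ({f x₀}ᶜ : Set Y) ∪ range j₂ = univ := by
    rw [eq_univ_iff_forall]
    intro y
    by_cases h : y = f x₀
    · right
      exact ⟨⟨x₀, hx⟩, h.symm⟩
    · left
      exact h
  have hm₁ : MapsTo j₁ (j₁ ⁻¹' ({x₀}ᶜ : Set X)) ({x₀}ᶜ : Set X) := fun y hy => hy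
  have hm₂ : MapsTo j₂ (j₁ ⁻¹' ({x₀}ᶜ : Set X)) ({f x₀}ᶜ : Set Y) := fun y hy => (hS₂ y).mp hy
  have e₁ := excision_emb (A := A) j₁ hj₁ isClosed_singleton.isOpen_compl hc₁ hS₁ hm₁ n
  have e₂ := excision_emb (A := A) j₂ hj₂ isClosed_singleton.isOpen_compl hc₂ hS₂ hm₂ n
  have h3 : (HR.pb (n := n) (A := A) j₂ hm₂) =
      (HR.pb (n := n) (A := A) j₁ hm₁) ∘ (HR.pb (n := n) (A := A) f hmap) := by
    funext u
    change _ = HR.pb j₁ hm₁ (HR.pb f hmap u)
    rw [HR.pb_comp]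
  have h4 : Function.Bijective (HR.pb (n := n) (A := A) f hmap) := by
    rw [h3] at e₂
    exact (e₁.of_comp_iff' _).mp e₂
  have h5 : (H.pb (n := n) (A := A) f) ∘ (HR.toH (n := n) (S := ({f x₀}ᶜ : Set Y)) (A := A)) =
      (HR.toH (n := n) (S := ({x₀}ᶜ : Set X)) (A := A)) ∘ (HR.pb (n := n) (A := A) f hmap) := by
    funext u
    exact (HR.toH_pb f hmap u).symm
  have h6 : Function.Bijective ((H.pb (n := n) (A := A) f) ∘
      (HR.toH (n := n) (S := ({f x₀}ᶜ : Set Y)) (A := A))) := by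
    rw [h5]
    exact (hX A).comp h4
  exact (Function.Bijective.of_comp_iff _ (hY A)).mp h6

end

end Pool.Agent.Lib.MP_89fcdb_gt.H4
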